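import Mathlib
import Pool.Agent.H759R2.Kad.Props6

/-!
Task W8 (helper602): first selection (nearly tracial corner, step 1).
-/

open scoped ComplexOrder InnerProductSpace ComplexConjugate
open Finset

noncomputable section

namespace H602R2.Kad5

open H759R2.Kad

universe u v

section aux

variable {A : Type u} [CStarAlgebra A]

theorem prj_of_pis {v : A} (hv : PIs v) : (star v * v) * (star v * v) = star v * v := by
  unfold PIs at hv
  calc (star v * v) * (star v * v) = star v * (v * star v * v) := by noncomm_ring
    _ = star v * v := by rw [hv]

theorem pis_star {v : A} (hv : PIs v) : star v * v * star v = star v := by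
  unfold PIs at hv
  have := congrArg star hv
  rw [star_mul, star_mul, star_star] at this
  rw [mul_assoc]
  exact this

theorem pis_of_prj {w p : A} (hp : Prj p) (h : star w * w = p) : w * p = w := by
  have h1 : star (w * p - w) * (w * p - w) = 0 := by
    rw [star_sub, star_mul, hp.1]
    calc (p * star w - star w) * (w * p - w)
        = p * (star w * w) * p - p * (star w * w) - (star w * w) * p + star w * w := by
          noncomm_ring
      _ = p * p * p - p * p - p * p + p := by rw [h]
      _ = 0 := by rw [hp.2, hp.2]; abel
  rw [CStarRing.star_mul_self_eq_zero_iff, sub_eq_zero] at h1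
  exact h1

theorem exd_refl {v : A} (hv : PIs v) : Exd v v := by
  unfold Exd
  rw [← mul_assoc]
  exact hv

theorem exd_trans {a b c : A} (ha : PIs a) (hb : PIs b) (h1 : Exd a b) (h2 : Exd b c) :
    Exd a c := by
  unfold Exd at h1 h2 ⊢
  set P := star a * a with hP
  set Q := star b * b with hQ
  have hPP : P * P = P := prj_of_pis ha
  have hQQ : Q * Q = Q := prj_of_pis hb
  have hPs : star P = P := by rw [hP, star_mul, star_star]
  have hQs : star Q = Q := by rw [hQ, star_mul, star_star]
  have h3 : P * Q * P = P := by
    have : star a * a = star (b * P) * (b * P) := by rw [h1]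
    rw [star_mul, hPs] at this
    calc P * Q * P = P * star b * (b * P) := by rw [hQ]; noncomm_ring
      _ = P := this.symm
  have h4 : star ((1 - Q) * P) * ((1 - Q) * P) = 0 := by
    rw [star_mul, star_sub, star_one, hPs, hQs]
    calc P * (1 - Q) * ((1 - Q) * P) = P * P - P * Q * P - P * Q * P + P * (Q * Q) * P := by
          noncomm_ring
      _ = 0 := by rw [hQQ, h3, hPP]; abel
  rw [CStarRing.star_mul_self_eq_zero_iff, sub_mul, one_mul, sub_eq_zero] at h4
  rw [h4, ← mul_assoc, h2, h1]

end aux

end H602R2.Kad5

namespace H759R2.Kad

open H602R2.Kad5

universe u v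

theorem prove6_sel (h : W_canc.{u}) : W_sel.{u} := by
  intro A _ hA φ hφ s hs hs0 hfin hfaith
  have hre : ∀ a : A, 0 ≤ (φ (star a * a)).re := fun a => (Complex.le_def.mp (hφ.pos a)).1
  have him : ∀ a : A, (φ (star a * a)).im = 0 := fun a => (Complex.le_def.mp (hφ.pos a)).2.symm
  set V : Set A := {v | PIs v ∧ s * v = v ∧ v * s = v ∧
    2 * (φ (star v * v)).re ≤ (φ (v * star v)).re} with hV
  have h0V : (0 : A) ∈ V := by
    rw [hV]
    refine ⟨?_, ?_, ?_, ?_⟩
    · unfold PIs; simp
    · simp
    · simp
    · simp
  have : Nonempty V := ⟨⟨0, h0V⟩⟩
  obtain ⟨m, hm⟩ := exists_maximal_of_nonempty_chains_bounded (α := V)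
    (r := fun a b => Exd a.1 b.1) (by
      intro c hc hcne
      set C : Set A := Subtype.val '' c with hC
      have hCV : ∀ v ∈ C, v ∈ V := by
        rintro _ ⟨v, _, rfl⟩
        exact v.2
      have hchn : IsChn C := by
        refine ⟨?_, fun v hv => (hCV v hv).1, ?_⟩
        · obtain ⟨x, hx⟩ := hcne
          exact ⟨x.1, x, hx, rfl⟩
        · rintro _ ⟨a, ha, rfl⟩ _ ⟨b, hb, rfl⟩
          by_cases hab : a = b
          · left
            rw [hab]
            exact exd_refl b.2.1
          · exact hc ha hb hab
      obtain ⟨V0, hV0⟩ := hA.chain C hchn
      have hsV : s * V0 = V0 := by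
        have h1 := hV0.ann (1 - s) 1 (by
          intro v hv
          rw [mul_one, sub_mul, one_mul, (hCV v hv).2.1, sub_self])
        rw [mul_one, sub_mul, one_mul, sub_eq_zero] at h1
        exact h1.symm
      have hVs : V0 * s = V0 := by
        have h1 := hV0.ann 1 (1 - s) (by
          intro v hv
          rw [one_mul, mul_sub, mul_one, (hCV v hv).2.2.1, sub_self])
        rw [one_mul, mul_sub, mul_one, sub_eq_zero] at h1
        exact h1.symm
      have hin : 2 * (φ (star V0 * V0)).re ≤ (φ (V0 * star V0)).re := by
        apply le_of_forall_pos_le_add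
        intro ε hε
        obtain ⟨v, hv, h1, _⟩ := hφ.chain 1 C V0 hchn hV0 (ε / 2) (by linarith)
        simp only [one_mul, star_one, mul_one] at h1
        have h2 := (hCV v hv).2.2.2
        have hext : V0 * (star v * v) = v := hV0.ext v hv
        have h3 : (φ (v * star v)).re ≤ (φ (V0 * star V0)).re := by
          have hy := hre ((1 - star v * v) * star V0)
          have hyy : star ((1 - star v * v) * star V0) * ((1 - star v * v) * star V0) =
              V0 * star V0 - v * star v := by
            have hvv := prj_of_pis (hCV v hv).1
            rw [star_mul, star_star, star_sub, star_one, star_mul, star_star]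
            have e1 : v * star v = V0 * (star v * v) * ((star v * v) * star V0) := by
              have : star v = star (V0 * (star v * v)) := by rw [hext]
              rw [star_mul, star_mul, star_star] at this
              rw [hext, ← this]
            rw [e1]
            calc V0 * (1 - star v * v) * ((1 - star v * v) * star V0)
                = V0 * star V0 - V0 * (star v * v) * star V0 - V0 * (star v * v) * star V0
                  + V0 * ((star v * v) * (star v * v)) * star V0 := by noncomm_ring
              _ = V0 * star V0 - V0 * (star v * v) * star V0 - V0 * (star v * v) * star V0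
                  + V0 * (star v * v) * star V0 := by rw [hvv]
              _ = V0 * star V0 - V0 * (star v * v) * star V0 := by abel
              _ = V0 * star V0 - V0 * ((star v * v) * (star v * v)) * star V0 := by rw [hvv]
              _ = _ := by noncomm_ring
          rw [hyy, map_sub, Complex.sub_re] at hy
          linarith
        linarith
      exact ⟨⟨V0, hV0.pi, hsV, hVs, hin⟩, fun a ha => hV0.ext a.1 ⟨a, ha, rfl⟩⟩) (by
      intro a b c h1 h2
      exact exd_trans a.2.1 b.2.1 h1 h2)
  obtain ⟨v, hvp, hsv, hvs, hv2⟩ := m
  have hvv := prj_of_pis hvp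
  have hsvs : star v * s = star v := by
    have := congrArg star hsv
    rwa [star_mul, hs.1] at this
  have hsvs' : s * star v = star v := by
    have := congrArg star hvs
    rwa [star_mul, hs.1] at this
  have hvst := pis_star hvp
  have hvp' : v * star v * v = v := hvp
  -- the remaining projection
  have hpP : Prj (s - star v * v) := by
    refine ⟨?_, ?_⟩
    · rw [star_sub, hs.1, star_mul, star_star]
    · calc (s - star v * v) * (s - star v * v)
          = s * s - (s * star v) * v - star v * (v * s) + (star v * v) * (star v * v) := by
            noncomm_ring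
        _ = s - star v * v := by rw [hs.2, hsvs', hvs, hvv]; abel
  have hp0 : s - star v * v ≠ 0 := by
    intro hz
    rw [sub_eq_zero] at hz
    rw [← hz] at hv2
    have h1 : star (s - v * star v) * (s - v * star v) = s - v * star v := by
      rw [star_sub, hs.1, star_mul, star_star]
      calc (s - v * star v) * (s - v * star v)
          = s * s - (s * v) * star v - v * (star v * s) + (v * star v * v) * star v := by
            noncomm_ring
        _ = s - v * star v := by rw [hs.2, hsv, hsvs, hvp']; abel
    have h2 := hre (s - v * star v)
    rw [h1, map_sub, Complex.sub_re] at h2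
    have h3 := hre s
    have h4 := him s
    rw [hs.1, hs.2] at h3 h4
    have h5 : (φ s).re = 0 := by linarith
    exact hs0 (hfaith s hs hs.2 (Complex.ext h5 h4))
  obtain ⟨w, hw1, hw2⟩ := h A hA s hs hfin v hvp hsv hvs
  have hwp : w * (s - star v * v) = w := pis_of_prj hpP hw1
  have hww : w * star w * w = w := by rw [mul_assoc, hw1, hwp]
  have hsw : s * w = w := by
    calc s * w = s * (w * star w) * w := by rw [mul_assoc s, hww]
      _ = (s * s - (s * v) * star v) * w := by rw [hw2]; noncomm_ring
      _ = (w * star w) * w := by rw [hs.2, hsv, hw2]
      _ = w := hww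
  refine ⟨s - star v * v, w, hpP, ?_, hp0, hw1, hsw, ?_⟩
  · rw [mul_sub, hs.2, ← mul_assoc, hsvs']
  intro u hu hup hwu
  by_contra hcon
  push Not at hcon
  have hvpz : v * (s - star v * v) = 0 := by
    rw [mul_sub, hvs, ← mul_assoc, hvp', sub_self]
  have hvu : v * star u = 0 := by
    have h1 : star u = (s - star v * v) * star u := by
      have := congrArg star hup
      rw [star_mul, hpP.1] at this
      exact this.symm
    rw [h1, ← mul_assoc, hvpz, zero_mul]
  have huv : u * star v = 0 := by
    have := congrArg star hvu
    rwa [star_mul, star_star, star_zero] at this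
  have hvsu : star v * u = 0 := by
    rw [← hwu, hw2, ← mul_assoc, mul_sub, hsvs, ← mul_assoc, hvst, sub_self, zero_mul]
  have husv : star u * v = 0 := by
    have := congrArg star hvsu
    rwa [star_mul, star_star, star_zero] at this
  have hsu : s * u = u := by
    conv_lhs => rw [← hwu]
    rw [← mul_assoc, ← mul_assoc, hsw, hwu]
  have hps : (s - star v * v) * s = s - star v * v := by
    rw [sub_mul, hs.2, mul_assoc, hvs]
  have hus : u * s = u := by
    conv_lhs => rw [← hup]
    rw [mul_assoc, hps, hup]
  have hupi : u * star u * u = u := hu
  have e1 : star (v + u) * (v + u) = star v * v + star u * u := by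
    rw [star_add]
    calc (star v + star u) * (v + u) = star v * v + star v * u + star u * v + star u * u := by
          noncomm_ring
      _ = _ := by rw [hvsu, husv]; abel
  have e2 : (v + u) * star (v + u) = v * star v + u * star u := by
    rw [star_add]
    calc (v + u) * (star v + star u) = v * star v + v * star u + u * star v + u * star u := by
          noncomm_ring
      _ = _ := by rw [hvu, huv]; abel
  have hmem : v + u ∈ V := by
    rw [hV]
    refine ⟨?_, ?_, ?_, ?_⟩
    · unfold PIs
      rw [e2]
      calc (v * star v + u * star u) * (v + u)
          = v * star v * v + v * (star v * u) + u * (star u * v) + u * star u * u := by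
            noncomm_ring
        _ = v + u := by rw [hvp', hvsu, husv, hupi]; simp
    · rw [mul_add, hsv, hsu]
    · rw [add_mul, hvs, hus]
    · rw [e1, e2, map_add, map_add, Complex.add_re, Complex.add_re]
      linarith
  have hext : Exd v (v + u) := by
    unfold Exd
    calc (v + u) * (star v * v) = v * star v * v + (u * star v) * v := by noncomm_ring
      _ = v := by rw [hvp', huv]; simp
  have h1 := hm ⟨v + u, hmem⟩ hext
  unfold Exd at h1
  simp only at h1
  rw [e1] at h1
  have h2 : v * (star v * v + star u * u) = v := by
    calc v * (star v * v + star u * u) = v * star v * v + (v * star u) * u := by noncomm_ring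
      _ = v := by rw [hvp', hvu]; simp
  rw [h2] at h1
  have hu0 : u = 0 := by
    have := h1
    nth_rewrite 1 [← add_zero v] at this
    exact (add_left_cancel this).symm
  rw [hu0] at hcon
  simp at hcon

end H759R2.Kad
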